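import Pool.Agent.NH53.SC.Char

set_option autoImplicit false

/-!
# André's supercharacter theory is the coarsest one containing the single-box characters

Proof. The functions constant on the superclasses of a supercharacter theory that contains all
single-box characters as irreducible characters include these characters, and the values of the
single-box characters separate André's superclasses: every two-sided orbit `U x U` contains a
matrix with at most one nonzero entry in every row and column, and its entries can be read off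
inductively from the values of the single-box characters.
-/

namespace Pool.Agent.Results.MP_1f99fc_al.AndreCoarsest
open Pool.Agent.W367.SN Pool.Agent.NH53.SC

variable {n : ℕ} {F : Type} [Field F] [Finite F]

omit [Finite F] in
theorem sig_singleton (χ : unitri n F → ℂ) (g : unitri n F) : sig {χ} g = χ 1 * χ g := by
  unfold sig
  exact finsum_mem_singleton

/-- The superclass partition of every supercharacter theory containing the single-box characters
is finer than André's. -/
theorem finerK (θ : AddChar F ℂ) (hθ : θ ≠ 1) (X : Set (Set (unitri n F → ℂ)))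
    (K : Set (Set (unitri n F))) (hXK : IsSuperTheory X K)
    (hbox : ∀ i j : Fin n, i < j → ∀ a : F, a ≠ 0 → {boxChar θ i j a} ∈ X) :
    ∀ k ∈ K, ∃ k' ∈ andreK n F, k ⊆ k' := by
  intro k hk
  obtain ⟨h, hh⟩ := hXK.block_grp k hk
  refine ⟨superclass h, ⟨h, rfl⟩, fun g hg => separate θ hθ g h ?_⟩
  intro i j hij a ha
  have h1 := hXK.const _ (hbox i j hij a ha) k hk g hg h hh
  rw [sig_singleton, sig_singleton] at h1
  have h2 := mul_left_cancel₀ (irr_one_ne (boxChar_irr (i := i) (j := j) ha θ hθ)) h1
  rw [orbSum_eq_boxChar, orbSum_eq_boxChar, h2]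

/-- If the superclass partition is finer than André's, then so is the partition of the irreducible
characters. -/
theorem finerX (θ : AddChar F ℂ) (hθ : θ ≠ 1) (X : Set (Set (unitri n F → ℂ)))
    (K : Set (Set (unitri n F))) (hXK : IsSuperTheory X K)
    (hK : ∀ k ∈ K, ∃ k' ∈ andreK n F, k ⊆ k') :
    ∀ B ∈ X, ∃ B' ∈ andreX (n := n) θ, B ⊆ B' := by
  classical
  have hKfin : K.Finite := Set.toFinite K
  have hXfin : X.Finite := by
    have h1 : X ⊆ 𝒫 (IrrC (unitri n F)) := fun B hB => (hXK.block_irr B hB).2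
    exact (irr_finite.powerset).subset h1
  have := hXfin.fintype
  have := hKfin.fintype
  have hkr : ∀ k : K, ∃ x, x ∈ (k : Set (unitri n F)) := fun k => hXK.block_grp k k.2
  choose x hx using hkr
  let f : X → (K → ℂ) := fun B k => sig (B : Set (unitri n F → ℂ)) (x k)
  have hblk : ∀ g : unitri n F, ∃ k : K, g ∈ (k : Set (unitri n F)) := by
    intro g
    obtain ⟨k, ⟨hk, hgk⟩, _⟩ := hXK.cover_grp g
    exact ⟨⟨k, hk⟩, hgk⟩
  have huniq : ∀ B B' : X, ∀ χ, χ ∈ (B : Set (unitri n F → ℂ)) →
      χ ∈ (B' : Set (unitri n F → ℂ)) → B = B' := by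
    intro B B' χ hχ hχ'
    obtain ⟨B0, _, hB0⟩ := hXK.cover_irr χ ((hXK.block_irr B B.2).2 hχ)
    apply Subtype.ext
    rw [hB0 B ⟨B.2, hχ⟩, hB0 B' ⟨B'.2, hχ'⟩]
  -- pairing a combination of the `σ_B` with a member of a block
  have hpairing : ∀ (b : X → ℂ) (B : X) (χ : unitri n F → ℂ),
      χ ∈ (B : Set (unitri n F → ℂ)) →
      ∑ g, (∑ B', b B' * sig (B' : Set (unitri n F → ℂ)) g) * χ g⁻¹ =
        b B * ((Fintype.card (unitri n F) : ℂ) * χ 1) := by
    intro b B χ hχ
    have hirr := (hXK.block_irr B B.2).2 hχ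
    simp only [Finset.sum_mul]
    rw [Finset.sum_comm, Finset.sum_eq_single B]
    · have h1 := sig_pair (B : Set (unitri n F → ℂ)) (hXK.block_irr B B.2).2 χ hirr
      rw [if_pos hχ] at h1
      rw [← h1, Finset.mul_sum]
      exact Finset.sum_congr rfl fun g _ => mul_assoc _ _ _
    · intro B' _ hB'
      have h1 := sig_pair (B' : Set (unitri n F → ℂ)) (hXK.block_irr B' B'.2).2 χ hirr
      rw [if_neg (fun h => hB' (huniq B' B χ h hχ))] at h1
      have h2 : ∑ g, b B' * sig (B' : Set (unitri n F → ℂ)) g * χ g⁻¹ =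
          b B' * ∑ g, sig (B' : Set (unitri n F → ℂ)) g * χ g⁻¹ := by
        rw [Finset.mul_sum]
        exact Finset.sum_congr rfl fun g _ => mul_assoc _ _ _
      rw [h2, h1, mul_zero]
    · intro h
      exact absurd (Finset.mem_univ _) h
  have hconst : ∀ (B : X) (k : K) (g : unitri n F), g ∈ (k : Set (unitri n F)) →
      sig (B : Set (unitri n F → ℂ)) g = f B k :=
    fun B k g hg => hXK.const B B.2 k k.2 g hg (x k) (hx k)
  have hli : LinearIndependent ℂ f := by
    rw [Fintype.linearIndependent_iff]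
    intro a ha B
    have h1 : ∀ g : unitri n F, ∑ B', a B' * sig (B' : Set (unitri n F → ℂ)) g = 0 := by
      intro g
      obtain ⟨k, hk⟩ := hblk g
      have h2 := congrFun ha k
      rw [Finset.sum_apply] at h2
      change ∑ B', a B' * f B' k = 0 at h2
      rw [← h2]
      exact Finset.sum_congr rfl fun B' _ => by rw [hconst B' k g hk]
    obtain ⟨χ, hχ⟩ := (hXK.block_irr B B.2).1
    have h2 := hpairing a B χ hχ
    simp only [h1, zero_mul, Finset.sum_const_zero] at h2
    exact (mul_eq_zero.1 h2.symm).resolve_right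
      (mul_ne_zero card_ne (irr_one_ne ((hXK.block_irr B B.2).2 hχ)))
  have hcard : Fintype.card X = Module.finrank ℂ (K → ℂ) := by
    rw [Module.finrank_fintype_fun_eq_card]
    have := hXK.card_eq
    rw [← Nat.card_coe_set_eq, ← Nat.card_coe_set_eq, Nat.card_eq_fintype_card,
      Nat.card_eq_fintype_card] at this
    exact this
  have htop := hli.span_eq_top_of_card_eq_finrank' hcard
  intro B hB
  obtain ⟨χ, hχ⟩ := (hXK.block_irr B hB).1
  have hχirr := (hXK.block_irr B hB).2 hχ
  obtain ⟨B', ⟨hB', hχB'⟩, _⟩ := (andre_isSuperTheory (n := n) θ hθ).cover_irr χ hχirr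
  obtain ⟨μ, rfl⟩ := hB'
  refine ⟨constituents θ μ, ⟨μ, rfl⟩, ?_⟩
  intro ψ hψ
  have hmem : (fun k : K => orbSum θ μ (x k)) ∈ Submodule.span ℂ (Set.range f) := by
    rw [htop]
    trivial
  obtain ⟨b, hb⟩ := (Submodule.mem_span_range_iff_exists_fun ℂ).1 hmem
  have h1 : ∀ g : unitri n F,
      ∑ B', b B' * sig (B' : Set (unitri n F → ℂ)) g = orbSum θ μ g := by
    intro g
    obtain ⟨k, hk⟩ := hblk g
    have h2 := congrFun hb k
    rw [Finset.sum_apply] at h2
    change ∑ B', b B' * f B' k = orbSum θ μ (x k) at h2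
    have h3 : orbSum θ μ g = orbSum θ μ (x k) := by
      obtain ⟨k', hk', hsub⟩ := hK k k.2
      obtain ⟨y, rfl⟩ := hk'
      rw [orbSum_superclass θ μ (hsub hk), orbSum_superclass θ μ (hsub (hx k))]
    rw [h3, ← h2]
    exact Finset.sum_congr rfl fun B' _ => by rw [hconst B' k g hk]
  have h2 := hpairing b ⟨B, hB⟩ χ hχ
  have h3 := hpairing b ⟨B, hB⟩ ψ hψ
  simp only [h1] at h2 h3
  have h4 : pair θ μ χ ≠ 0 := ((mem_constituents θ μ χ).1 hχB').2
  have h5 : b ⟨B, hB⟩ ≠ 0 := by
    intro h0
    apply h4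
    unfold pair
    rw [h2, h0, zero_mul]
  rw [mem_constituents]
  refine ⟨(hXK.block_irr B hB).2 hψ, ?_⟩
  unfold pair
  rw [h3]
  exact mul_ne_zero h5 (mul_ne_zero card_ne (irr_one_ne ((hXK.block_irr B hB).2 hψ)))

/-- **André's supercharacter theory of `U_n(F_q)` is the coarsest supercharacter theory that
contains all single-box characters as irreducible characters.** Let `F` be a finite field, `n` any
natural number and `θ` a nontrivial character of the additive group of `F`.

(1) `(andreX θ, andreK n F)` is a supercharacter theory of the group `unitri n F = U_n(F)`, and its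
supercharacters `σ_B = ∑_{ψ ∈ B} ψ(1) ψ` are the orbit sums `g ↦ ∑_{ν ∈ U μ U} θ(ν(g - 1))`.

(2) For `i < j` and `a ≠ 0` the single-box character `boxChar θ i j a` is an irreducible character,
and `{boxChar θ i j a}` is a block of `andreX θ`.

(3) If `(X, K)` is any supercharacter theory of `U_n(F)` such that `{boxChar θ i j a}` is a block of
`X` for all `i < j` and `a ≠ 0`, then every block of `K` is contained in a superclass of André's
theory, and every block of `X` is contained in a block of `andreX θ`. -/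
theorem result (F : Type) [Field F] [Finite F] (n : ℕ) (θ : AddChar F ℂ) (hθ : θ ≠ 1) :
    (IsSuperTheory (andreX (n := n) θ) (andreK n F) ∧
      ∀ μ : Module.Dual F (strictUpper n F), sig (constituents θ μ) = orbSum θ μ) ∧
    (∀ i j : Fin n, i < j → ∀ a : F, a ≠ 0 →
      boxChar θ i j a ∈ IrrC (unitri n F) ∧ {boxChar θ i j a} ∈ andreX (n := n) θ) ∧
    ∀ (X : Set (Set (unitri n F → ℂ))) (K : Set (Set (unitri n F))), IsSuperTheory X K →
      (∀ i j : Fin n, i < j → ∀ a : F, a ≠ 0 → {boxChar θ i j a} ∈ X) →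
      (∀ k ∈ K, ∃ k' ∈ andreK n F, k ⊆ k') ∧ ∀ B ∈ X, ∃ B' ∈ andreX (n := n) θ, B ⊆ B' := by
  refine ⟨⟨andre_isSuperTheory θ hθ, sig_constituents θ hθ⟩, ?_, ?_⟩
  · intro i j _ a ha
    exact ⟨boxChar_irr ha θ hθ, box i j a, constituents_box ha θ hθ⟩
  · intro X K hXK hbox
    have h1 := finerK θ hθ X K hXK hbox
    exact ⟨h1, finerX θ hθ X K hXK h1⟩

end Pool.Agent.Results.MP_1f99fc_al.AndreCoarsest
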